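import Pool.Agent.V5helper6.ZL.REFLcore
import Pool.Agent.V5helper90.ZL.Stm2

/-!
# The job REFL
-/

set_option autoImplicit false

namespace Pool.Agent.V5helper6.ZL

open Pool.Agent.V5helper90.ZL

theorem t_REFL : S_REFL := by
  intro ι κ _ _ _ _ Q τ s b h _ hb hτ hw hfix j
  exact reflCore Q τ s b h hb hτ hw hfix j

end Pool.Agent.V5helper6.ZL
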