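import Pool.Agent.V5helper90.ZL.StmA
import Pool.Agent.N996.FP.Dk

/-!
# Arrays with few transcendental letters fixed by products of two reflections
-/

set_option autoImplicit false

namespace Pool.Agent.V5helper6.ZL

open Matrix Pool.Agent.N996.BP Pool.Agent.N996.FP Pool.Agent.V5helper90.ZL

section

variable {ι : Type} [Fintype ι] [DecidableEq ι] {κ : Type} [Fintype κ] [DecidableEq κ]

/-- The rank one projector in the direction of `b`. -/
def qq (Q : Matrix ι ι ℂ) (b : ι → ℂ) : Matrix ι ι ℂ := vecMulVec b (Q *ᵥ b)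

/-- The projectors, with the complementary one. -/
def pp {s : ℕ} (Q : Matrix ι ι ℂ) (b : Fin s → ι → ℂ) : Option (Fin s) → Matrix ι ι ℂ
  | some j => qq Q (b j)
  | none => 1 - ∑ j, qq Q (b j)

/-- The reflections. -/
def rr (Q : Matrix ι ι ℂ) (b : ι → ℂ) : Matrix ι ι ℂ := 1 - (2 : ℂ) • vecMulVec b (Q *ᵥ b)

omit [DecidableEq ι] in
lemma qq_mul (Q : Matrix ι ι ℂ) (u v : ι → ℂ) :
    qq Q u * qq Q v = bil Q v u • vecMulVec u (Q *ᵥ v) := by
  rw [qq, qq, bil, Matrix.vecMulVec_mul_vecMulVec, dotProduct_comm]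
  ext i j
  simp [vecMulVec_apply]
  ring

lemma sum_pp {s : ℕ} (Q : Matrix ι ι ℂ) (b : Fin s → ι → ℂ) : ∑ a, pp Q b a = 1 := by
  rw [Fintype.sum_option]
  simp [pp]

lemma pp_mul_rr {s : ℕ} (Q : Matrix ι ι ℂ) (b : Fin s → ι → ℂ)
    (hb : ∀ i j, bil Q (b i) (b j) = if i = j then 1 else 0) (a : Option (Fin s)) (j : Fin s) :
    pp Q b a * rr Q (b j) = if a = some j then - pp Q b a else pp Q b a := by
  have hq : ∀ i j, qq Q (b i) * qq Q (b j) = if i = j then qq Q (b j) else 0 := by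
    intro i j
    rw [qq_mul, hb]
    by_cases h : j = i
    · subst h; simp [qq]
    · rw [if_neg h, if_neg (Ne.symm h), zero_smul]
  have hr : rr Q (b j) = 1 - (2 : ℂ) • qq Q (b j) := rfl
  rw [hr]
  cases a with
  | some i =>
    change qq Q (b i) * _ = _
    rw [Matrix.mul_sub, Matrix.mul_one, Matrix.mul_smul, hq]
    by_cases h : i = j
    · subst h
      rw [if_pos rfl, if_pos rfl]
      change _ = - qq Q (b i)
      rw [two_smul]
      abel
    · rw [if_neg h, if_neg (by simpa using h), smul_zero, sub_zero]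
      rfl
  | none =>
    rw [if_neg (by simp)]
    change (1 - ∑ i, qq Q (b i)) * _ = 1 - ∑ i, qq Q (b i)
    rw [Matrix.mul_sub, Matrix.mul_one, Matrix.mul_smul, Matrix.sub_mul, Matrix.one_mul,
      Finset.sum_mul]
    have : ∑ i, qq Q (b i) * qq Q (b j) = qq Q (b j) := by
      simp [hq]
    rw [this, sub_self, smul_zero, sub_zero]

lemma rr_sq {s : ℕ} (Q : Matrix ι ι ℂ) (b : Fin s → ι → ℂ)
    (hb : ∀ i j, bil Q (b i) (b j) = if i = j then 1 else 0) (j : Fin s) :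
    rr Q (b j) * rr Q (b j) = 1 := by
  have hq : qq Q (b j) * qq Q (b j) = qq Q (b j) := by
    rw [qq_mul, hb]; simp [qq]
  have hr : rr Q (b j) = 1 - (2 : ℂ) • qq Q (b j) := rfl
  rw [hr, Matrix.mul_sub, Matrix.mul_one, Matrix.mul_smul, Matrix.sub_mul, Matrix.one_mul,
    Matrix.smul_mul, hq]
  rw [two_smul, two_smul]
  abel

/-- The expansion of the identity. -/
lemma one_eq_sum {s : ℕ} (Q : Matrix ι ι ℂ) (b : Fin s → ι → ℂ) :
    (1 : Matrix (κ → ι) (κ → ι) ℂ) = ∑ φ : κ → Option (Fin s), kpf fun k => pp Q b (φ k) := by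
  rw [← kp_one, ← kpf_const]
  ext i j
  rw [Matrix.sum_apply]
  simp only [kpf_apply]
  rw [← sum_pp Q b]
  simp only [Matrix.sum_apply]
  rw [Finset.prod_univ_sum]
  refine Finset.sum_congr (by ext; simp) fun a _ => rfl

omit [DecidableEq ι] in
/-- Vanishing for words with few letters. -/
lemma kpf_few {s : ℕ} (τ : ι → Prop) (h : (κ → ι) → ℂ)
    (hw : ∀ w, h w ≠ 0 → Nat.card {k // τ (w k)} < s) (φ : κ → Option (Fin s))
    (hφ : ∀ j, ∃ k, φ k = some j) (g : κ → Matrix ι ι ℂ)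
    (hg : ∀ k, φ k ≠ none → ∀ i w, ¬ τ w → g k i w = 0) : kpf g *ᵥ h = 0 := by
  classical
  funext i
  rw [Matrix.mulVec, dotProduct]
  refine Finset.sum_eq_zero fun w _ => ?_
  by_cases hw0 : h w = 0
  · rw [hw0, mul_zero]
  have h1 := hw w hw0
  obtain ⟨k, hk1, hk2⟩ : ∃ k, φ k ≠ none ∧ ¬ τ (w k) := by
    by_contra hcon
    push Not at hcon
    choose f hf using hφ
    have : s ≤ Nat.card {k // τ (w k)} := by
      have hinj : Function.Injective (fun j : Fin s =>
          (⟨f j, hcon (f j) (by rw [hf]; simp)⟩ : {k // τ (w k)})) := by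
        intro a b hab
        have h2 : f a = f b := congrArg Subtype.val hab
        have h3 := hf a
        rw [h2, hf b] at h3
        exact (Option.some.inj h3).symm
      have := Nat.card_le_card_of_injective _ hinj
      simpa using this
    omega
  rw [kpf_apply, Finset.prod_eq_zero (Finset.mem_univ k) (hg k hk1 _ _ hk2), zero_mul]

theorem reflCore (Q : Matrix ι ι ℂ)
    (τ : ι → Prop) (s : ℕ) (b : Fin s → ι → ℂ) (h : (κ → ι) → ℂ)
    (hb : ∀ i j, bil Q (b i) (b j) = if i = j then 1 else 0)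
    (hτ : ∀ j i, ¬ τ i → (Q *ᵥ b j) i = 0)
    (hw : ∀ w, h w ≠ 0 → Nat.card {k // τ (w k)} < s)
    (hfix : ∀ i j, kp κ (rr Q (b i) * rr Q (b j)) *ᵥ h = h) (j₀ : Fin s) :
    kp κ (rr Q (b j₀)) *ᵥ h = h := by
  classical
  have hfix' : ∀ i j, kp κ (rr Q (b i)) *ᵥ (kp κ (rr Q (b j)) *ᵥ h) = h := by
    intro i j
    rw [Matrix.mulVec_mulVec, ← kp_mul, hfix]
  have heq : ∀ i j, kp κ (rr Q (b j)) *ᵥ h = kp κ (rr Q (b i)) *ᵥ h := by
    intro i j
    have h1 : kp κ (rr Q (b i)) *ᵥ (kp κ (rr Q (b i)) *ᵥ (kp κ (rr Q (b j)) *ᵥ h)) =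
      kp κ (rr Q (b i)) *ᵥ h := by rw [hfix' i j]
    rw [Matrix.mulVec_mulVec (M := kp κ (rr Q (b i))) (N := kp κ (rr Q (b i))), ← kp_mul, rr_sq Q b hb i, kp_one, Matrix.one_mulVec] at h1
    exact h1
  set y : (κ → ι) → ℂ := h - kp κ (rr Q (b j₀)) *ᵥ h with hy
  have hρy : ∀ j, kp κ (rr Q (b j)) *ᵥ y = - y := by
    intro j
    rw [hy, Matrix.mulVec_sub, hfix', heq j₀ j]
    abel
  have hzero : y = 0 := by
    have h1 : y = ∑ φ : κ → Option (Fin s), (kpf fun k => pp Q b (φ k)) *ᵥ y := by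
      rw [← Matrix.sum_mulVec, ← one_eq_sum, Matrix.one_mulVec]
    rw [h1]
    refine Finset.sum_eq_zero fun φ _ => ?_
    by_cases hφ : ∀ j, ∃ k, φ k = some j
    · rw [hy, Matrix.mulVec_sub, Matrix.mulVec_mulVec, ← kpf_const, kpf_mul]
      have hp : ∀ k, φ k ≠ none → ∀ i w, ¬ τ w → pp Q b (φ k) i w = 0 := by
        intro k hk i w hwτ
        obtain ⟨j, hj⟩ := Option.ne_none_iff_exists'.1 hk
        rw [hj]
        change vecMulVec (b j) (Q *ᵥ b j) i w = 0
        rw [vecMulVec_apply, hτ j w hwτ, mul_zero]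
      rw [kpf_few τ h hw φ hφ _ hp, kpf_few τ h hw φ hφ, sub_zero]
      intro k hk i w hwτ
      rw [pp_mul_rr Q b hb]
      split_ifs
      · rw [Matrix.neg_apply, hp k hk i w hwτ, neg_zero]
      · exact hp k hk i w hwτ
    · push Not at hφ
      obtain ⟨j, hj⟩ := hφ
      have h2 : (kpf fun k => pp Q b (φ k)) * kp κ (rr Q (b j)) = kpf fun k => pp Q b (φ k) := by
        rw [← kpf_const, kpf_mul]
        congr 1
        funext k
        rw [pp_mul_rr Q b hb, if_neg (hj k)]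
      have h3 : (kpf fun k => pp Q b (φ k)) *ᵥ y = - ((kpf fun k => pp Q b (φ k)) *ᵥ y) := by
        conv_lhs => rw [← h2]
        rw [← Matrix.mulVec_mulVec, hρy, Matrix.mulVec_neg]
      exact self_eq_neg.1 h3
  exact (sub_eq_zero.1 hzero).symm

end

end Pool.Agent.V5helper6.ZL
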